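import Mathlib
import Pool.Agent.H54.Spec

set_option autoImplicit false

namespace Pool.Agent.Results.MP_7523ff_co.NoneColorable

open Classical
open Pool.Agent.H54.Spec

/-- For arbitrarily large n and m of quadratic size with r(n,m) = 2, minimizers exist and none
of them is 2-colourable. -/
theorem result (α : ℝ) (hα : α < 2) (c : ℝ) (n₀ : ℕ) :
    ∃ n m : ℕ, n₀ ≤ n ∧ c * (n : ℝ) ^ α ≤ (m : ℝ) ∧ m ≤ n.choose 2 ∧
      (SimpleGraph.turanGraph n 1).edgeSet.ncard < m ∧
      m ≤ (SimpleGraph.turanGraph n 2).edgeSet.ncard ∧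
      (∃ G : SimpleGraph (Fin n), G.Connected ∧ G.edgeSet.ncard = m) ∧
      ∀ G : SimpleGraph (Fin n), G.Connected → G.edgeSet.ncard = m →
        (∀ H : SimpleGraph (Fin n), H.Connected → H.edgeSet.ncard = m →
          sSup (spectrum ℝ (G.adjMatrix ℝ)) ≤ sSup (spectrum ℝ (H.adjMatrix ℝ))) →
        ¬ G.Colorable 2 := by
  obtain ⟨t, ht, hn, hc⟩ := exists_t α hα c n₀
  obtain ⟨h5, h6⟩ := turan_two t
  refine ⟨4 * t + 1, t * (4 * t + 1), hn, hc, ?_, ?_, ?_,
    ⟨circ t, circ_connected t ht, (circ_min t).1⟩,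
    fun G _ hm hmin => no_min_colorable t ht G hm hmin⟩
  · rw [Nat.choose_two_right, Nat.add_sub_cancel, Nat.le_div_iff_mul_le (by norm_num)]
    nlinarith
  · rw [h5]; positivity
  · rw [h6]; nlinarith

end Pool.Agent.Results.MP_7523ff_co.NoneColorable
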